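import Mathlib

namespace Pool.Agent.Results.MP_af59ae_nt.TwoPrimes

/-- `n` is attained -/
def Attained (n : ℕ) : Prop := ∃ x : ℕ, 1 ≤ x ∧ x % Nat.totient x = n

theorem lift (x n a : ℕ) (hx : 1 ≤ x) (h : (2 * x) % Nat.totient (2 * x) = n) :
    1 ≤ 2 ^ a * (2 * x) ∧ (2 ^ a * (2 * x)) % Nat.totient (2 ^ a * (2 * x)) = 2 ^ a * n := by
  refine ⟨Nat.succ_le_of_lt (by positivity), ?_⟩
  induction a with
  | zero => simpa using h
  | succ a ih =>
    have e : 2 ^ (a + 1) * (2 * x) = 2 * (2 ^ a * (2 * x)) := by ring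
    rw [e, Nat.totient_mul_of_prime_of_dvd Nat.prime_two ⟨2 ^ a * x, by ring⟩,
      Nat.mul_mod_mul_left, ih]; ring

theorem both (u x y : ℕ) (hx : 1 ≤ x) (hy : 1 ≤ y) (h1 : x % Nat.totient x = u)
    (h2 : (2 * y) % Nat.totient (2 * y) = 2 * u) (a : ℕ) : Attained (2 ^ a * u) := by
  rcases a with _ | a
  · exact ⟨x, hx, by simpa using h1⟩
  · have := lift y (2 * u) a hy h2
    exact ⟨_, this.1, by rw [this.2]; ring⟩

theorem pq (a p q : ℕ) (hp : p.Prime) (hq : q.Prime) (h5 : 5 ≤ p) (hpq : p < q) :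
    Attained (2 ^ a * (p + q - 1)) := by
  have c := (Nat.coprime_primes hp hq).2 hpq.ne
  have o : Nat.Coprime 2 (p * q) := by
    apply Nat.Coprime.mul_right
    · exact (Nat.coprime_primes Nat.prime_two hp).2 (by omega)
    · exact (Nat.coprime_primes Nat.prime_two hq).2 (by omega)
  have t : Nat.totient (p * q) = (p - 1) * (q - 1) := by
    rw [Nat.totient_mul c, Nat.totient_prime hp, Nat.totient_prime hq]
  have t2 : Nat.totient (2 * (p * q)) = (p - 1) * (q - 1) := by
    rw [Nat.totient_mul o, t]; simp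
  have q7 : 7 ≤ q := by
    by_contra hc
    have : q = 6 := by omega
    subst this; norm_num at hq
  obtain ⟨s, rfl⟩ := Nat.exists_eq_add_of_le' (show 1 ≤ p by omega)
  obtain ⟨r, rfl⟩ := Nat.exists_eq_add_of_le' (show 1 ≤ q by omega)
  simp only [Nat.add_sub_cancel] at t t2
  have lt : 2 * (s + r + 1) < s * r := by nlinarith
  have e : s + 1 + (r + 1) - 1 = s + r + 1 := by omega
  rw [e]
  apply both _ ((s + 1) * (r + 1)) ((s + 1) * (r + 1)) (by nlinarith) (by nlinarith)
  · rw [t, show (s + 1) * (r + 1) = (s + r + 1) + s * r * 1 by ring, Nat.add_mul_mod_self_left,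
      Nat.mod_eq_of_lt (by omega)]
  · rw [t2, show 2 * ((s + 1) * (r + 1)) = 2 * (s + r + 1) + s * r * 2 by ring,
      Nat.add_mul_mod_self_left, Nat.mod_eq_of_lt lt]

theorem result (a u : ℕ) (hu : Odd u)
    (h : u ≤ 9 ∨ ∃ p q : ℕ, p.Prime ∧ q.Prime ∧ 5 ≤ p ∧ p < q ∧ p + q = u + 1) :
    Attained (2 ^ a * u) := by
  rcases h with h | ⟨p, q, hp, hq, h5, hpq, e⟩
  · obtain ⟨t, rfl⟩ := hu
    have : t ≤ 4 := by omega
    interval_cases t
    · exact both _ 3 5 (by omega) (by omega) (by decide +kernel) (by decide +kernel) a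
    · exact both _ 9 15 (by omega) (by omega) (by decide +kernel) (by decide +kernel) a
    · exact both _ 25 25 (by omega) (by omega) (by decide +kernel) (by decide +kernel) a
    · exact both _ 49 49 (by omega) (by omega) (by decide +kernel) (by decide +kernel) a
    · exact both _ 27 45 (by omega) (by omega) (by decide +kernel) (by decide +kernel) a
  · have := pq a p q hp hq h5 hpq
    rwa [e, Nat.add_sub_cancel] at this

end Pool.Agent.Results.MP_af59ae_nt.TwoPrimes
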